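import Pool.Agent.H70.EI.Targets

/-!
# The strings on which the answers depend (module LOA)
-/

set_option autoImplicit false

namespace Pool.Agent.H18.EI

open Pool.Agent.H6.NB Pool.Agent.H70.OQ Pool.Agent.H70.EH Pool.Agent.H70.EI

/-- Alternating quantifiers: the predicate matters only on lists of admissible strings. -/
theorem alt_congr (R : List Bool → Prop) : ∀ (k : ℕ) (b : Bool) (P Q : List (List Bool) → Prop),
    (∀ ws, ws.length = k → (∀ w ∈ ws, R w) → (P ws ↔ Q ws)) → (Alt R b k P ↔ Alt R b k Q) := by
  intro k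
  induction k with
  | zero =>
    intro b P Q h
    have := h [] rfl (by simp)
    cases b <;> simpa [Alt] using this
  | succ k ih =>
    intro b P Q h
    have h' : ∀ w, R w → ∀ b', (Alt R b' k (fun ws => P (w :: ws)) ↔
        Alt R b' k fun ws => Q (w :: ws)) := by
      intro w hw b'
      refine ih b' _ _ fun ws hl hws => h (w :: ws) (by simp [hl]) ?_
      intro v hv
      rcases List.mem_cons.1 hv with rfl | hv
      · exact hw
      · exact hws v hv
    cases b with
    | true =>
      simp only [Alt]
      exact exists_congr fun w => and_congr_right fun hw => h' w hw false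
    | false =>
      simp only [Alt]
      exact forall_congr' fun w => forall_congr' fun hw => h' w hw true

/-- LOA: the strings on which the answers depend. -/
theorem loa (h1 : Pool.Agent.H6.NB.T_EVC) (h2 : Pool.Agent.H70.OQ.T_SPC) : T_LOA := by
  intro V W ρ i m hm O O' h
  cases i with
  | inl p =>
    replace hm : (V p.1).time p.2.length ≤ m := hm
    show p.2 ∈ (V p.1).lang O ↔ p.2 ∈ (V p.1).lang O'
    refine alt_congr _ _ _ _ _ fun ws hl hws => ?_
    rw [h1 ((V p.1).tree p.2 ws) ((V p.1).time p.2.length) O O' ((V p.1).short p.2 ws hl hws)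
      fun w hw => h w (by omega)]
  | inr a =>
    replace hm : (2 ^ ρ a) ^ (W a).2.c + (W a).2.c + 2 ^ ((W a).1 + 3) * 2 ^ ρ a + 1 ≤ m := hm
    show ¬ (List.replicate (2 ^ ρ a) false ∈ (W a).2.lang O ↔
        List.replicate (2 ^ ρ a) false ∈ plang ((W a).1 + 1) O) ↔
      ¬ (List.replicate (2 ^ ρ a) false ∈ (W a).2.lang O' ↔
        List.replicate (2 ^ ρ a) false ∈ plang ((W a).1 + 1) O')
    have e1 : List.replicate (2 ^ ρ a) false ∈ (W a).2.lang O ↔
        List.replicate (2 ^ ρ a) false ∈ (W a).2.lang O' := by
      have e3 : ∀ Q : List Bool → Bool, List.replicate (2 ^ ρ a) false ∈ (W a).2.lang Q ↔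
          Alt (fun w => w.length ≤ (List.replicate (2 ^ ρ a) false).length ^ (W a).2.c + (W a).2.c)
            true ((W a).1 + 1) fun ws =>
              ((W a).2.tree (List.replicate (2 ^ ρ a) false) ws).eval Q = true := fun Q => Iff.rfl
      rw [e3 O, e3 O']
      refine alt_congr _ _ _ _ _ fun ws hl hws => ?_
      rw [h1 ((W a).2.tree (List.replicate (2 ^ ρ a) false) ws) _ O O'
        ((W a).2.short (List.replicate (2 ^ ρ a) false) ws hl hws) fun w hw => h w ?_]
      rw [List.length_replicate] at hw
      omega
    have e2 : List.replicate (2 ^ ρ a) false ∈ plang ((W a).1 + 1) O ↔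
        List.replicate (2 ^ ρ a) false ∈ plang ((W a).1 + 1) O' := by
      refine exists_congr fun u => and_congr_right fun hu => ?_
      rw [List.length_replicate] at hu
      refine h2 _ O O' u fun w hw => h _ ?_
      rw [hu] at hw
      have h3 : (2 ^ ((W a).1 + 1 + 1) - 1) * 2 ^ ρ a ≤ 2 ^ ((W a).1 + 3) * 2 ^ ρ a := by
        refine Nat.mul_le_mul_right _ ((Nat.sub_le _ _).trans ?_)
        exact Nat.pow_le_pow_right (by norm_num) (by omega)
      rw [List.length_cons, hw]
      omega
    rw [e1, e2]

end Pool.Agent.H18.EI
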