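import Pool.Agent.H70.EI.Targets

/-!
# The value of an alternating computation is a small formula (module LCL)
-/

set_option autoImplicit false

namespace Pool.Agent.H18.EI

open Pool.Agent.H6.NB Pool.Agent.H70.OQ Pool.Agent.H70.EH Pool.Agent.H70.EI

/-- LCL: the value of an alternating computation, as a function of the variables of the oracle. -/
theorem lcl (h1 : Pool.Agent.H70.EH.T_DTC) (h2 : Pool.Agent.H70.EH.T_ALC) : T_LCL := by
  intro X S t k g O hS ht hO hg
  have ht4 : 2 ^ t ≤ S := (Nat.pow_le_pow_right (by norm_num) (by omega)).trans ht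
  have ht5 : t ≤ S := (Nat.lt_two_pow_self).le.trans ht4
  have h3 := h2 X S t 2 k (fun ws y => (g ws).eval (O y)) hS ht fun ws hws hw =>
    h1 X S t t (g ws) O hS ht5 ht4 (hg ws hws hw).1 (hg ws hws hw).2 hO
  have h4 : 2 + k + 1 = k + 3 := by omega
  rw [h4] at h3
  exact h3

end Pool.Agent.H18.EI
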